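import Mathlib

/-!
The Game of Cycles: a triangle-free board with 9 edges won by Player 2.
-/

namespace Pool.Agent.Results.MP_b0ae03_co.Hexagon

/-- The reversal of darts. A dart `(e, true)` runs along edge `e` from `src e` to `tgt e`,
and `(e, false)` runs the other way. -/
def rev (m : ℕ) : Equiv.Perm (Fin m × Bool) :=
  ⟨fun d => (d.1, !d.2), fun d => (d.1, !d.2), fun d => by simp, fun d => by simp⟩

/-- A connected simple plane graph with `n` vertices, `m` edges and `f` regions, given as a
combinatorial map of genus zero: `rot` turns each dart to the next dart around its starting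
vertex, the regions are the orbits of `rot * rev` (the boundary walks), Euler's formula says
that the surface is the sphere, and `outer` is the unbounded region. -/
structure Board (n m f : ℕ) where
  src : Fin m → Fin n
  tgt : Fin m → Fin n
  rot : Equiv.Perm (Fin m × Bool)
  face : Fin m × Bool → Fin f
  outer : Fin f
  loopless : ∀ e, src e ≠ tgt e
  simple : ∀ e e', s(src e, tgt e) = s(src e', tgt e') → e = e'
  conn : (SimpleGraph.fromRel fun u v => ∃ e, src e = u ∧ tgt e = v).Connected
  rot_cyc : ∀ d d', rot.SameCycle d d' ↔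
    (if d.2 then src d.1 else tgt d.1) = (if d'.2 then src d'.1 else tgt d'.1)
  face_surj : Function.Surjective face
  face_cyc : ∀ d d', (rot * rev m).SameCycle d d' ↔ face d = face d'
  euler : n + f = m + 2

variable {n m f : ℕ}

/-- The underlying graph. -/
def Board.graph (B : Board n m f) : SimpleGraph (Fin n) :=
  SimpleGraph.fromRel fun u v => ∃ e, B.src e = u ∧ B.tgt e = v

/-- The starting vertex of a dart. -/
def Board.tail (B : Board n m f) (d : Fin m × Bool) : Fin n :=
  if d.2 then B.src d.1 else B.tgt d.1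

/-- A position: `s e = none` if `e` is unmarked, `s e = some b` if `e` carries the arrow of the
dart `(e, b)`. -/
abbrev Pos (m : ℕ) := Fin m → Option Bool

/-- Mark the edge of the dart `d` in the direction of `d`. -/
def play (s : Pos m) (d : Fin m × Bool) : Pos m := fun e => if e = d.1 then some d.2 else s e

/-- All edges at `v` are marked and point away from `v`. -/
def Board.Source (B : Board n m f) (s : Pos m) (v : Fin n) : Prop :=
  ∀ d, B.tail d = v → s d.1 = some d.2

/-- All edges at `v` are marked and point toward `v`. -/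
def Board.Sink (B : Board n m f) (s : Pos m) (v : Fin n) : Prop :=
  ∀ d, B.tail d = v → s d.1 = some (!d.2)

/-- A legal move: the edge is unmarked, and no sink or source results. -/
def Board.Legal (B : Board n m f) (s : Pos m) (d : Fin m × Bool) : Prop :=
  s d.1 = none ∧ ∀ v, ¬ B.Source (play s d) v ∧ ¬ B.Sink (play s d) v

/-- Some bounded region has all its boundary edges marked along its boundary walk, or all
against it. -/
def Board.Cyc (B : Board n m f) (s : Pos m) : Prop :=
  ∃ c, c ≠ B.outer ∧ ((∀ d, B.face d = c → s d.1 = some d.2) ∨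
    (∀ d, B.face d = c → s d.1 = some (!d.2)))

/-- The player to move has a winning strategy: a legal move that creates a cycle cell, or a
legal move after which every legal reply (there may be none) creates no cycle cell and leaves
a position the player again wins. -/
inductive Board.Win (B : Board n m f) : Pos m → Prop
  | cyc (s d) : B.Legal s d → B.Cyc (play s d) → B.Win s
  | step (s d) : B.Legal s d →
      (∀ d', B.Legal (play s d) d' → ¬ B.Cyc (play (play s d) d')) →
      (∀ d', B.Legal (play s d) d' → B.Win (play (play s d) d')) → B.Win s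

/-- Player 2 has a winning strategy from the unmarked board. -/
def Board.SecondWins (B : Board n m f) : Prop :=
  ∀ d, B.Legal (fun _ => none) d → ¬ B.Cyc (play (fun _ => none) d) ∧
    B.Win (play (fun _ => none) d)

def sg (d : Fin 9 × Bool) : Fin 9 × Bool :=
  if d.2 then ![(6, false), (0, false), (7, false), (2, false), (8, false), (4, false),
    (7, true), (8, true), (6, true)] d.1
  else ![(1, true), (2, true), (3, true), (4, true), (5, true), (0, true), (5, false),
    (1, false), (3, false)] d.1

def sgP : Equiv.Perm (Fin 9 × Bool) :=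
  ⟨sg, fun d => sg (sg (sg (sg (sg d)))), by intro d; revert d; decide,
    by intro d; revert d; decide⟩

def fc (d : Fin 9 × Bool) : Fin 4 :=
  if d.2 then ![0, 0, 0, 0, 0, 0, 3, 1, 2] d.1 else ![1, 1, 2, 2, 3, 3, 1, 2, 3] d.1

lemma sameCycle_of {α : Type*} [DecidableEq α] {β : Type*} (p : Equiv.Perm α) (g : α → β)
    (h1 : ∀ x, g (p x) = g x) (h2 : ∀ x y, g x = g y → ∃ i < 6, p^[i] x = y) (x y : α) :
    p.SameCycle x y ↔ g x = g y := by
  constructor
  · rintro ⟨i, rfl⟩
    have h3 : ∀ x, g (p⁻¹ x) = g x := fun x => by rw [← h1 (p⁻¹ x)]; simp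
    induction i using Int.induction_on with
    | zero => simp
    | succ i ih => rw [add_comm, zpow_add]; simp only [zpow_one, Equiv.Perm.mul_apply, h1]; exact ih
    | pred i ih =>
      rw [sub_eq_add_neg, add_comm, zpow_add]
      simp only [zpow_neg, zpow_one, Equiv.Perm.mul_apply, h3]
      simpa using ih
  · intro h
    obtain ⟨i, -, rfl⟩ := h2 x y h
    exact ⟨i, by rw [zpow_natCast, Equiv.Perm.iterate_eq_pow]⟩

def hex : Board 7 9 4 where
  src := ![0, 1, 2, 3, 4, 5, 6, 6, 6]
  tgt := ![1, 2, 3, 4, 5, 0, 0, 2, 4]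
  rot := sgP
  face := fc
  outer := 0
  loopless := by decide
  simple := by decide
  conn := by
    rw [SimpleGraph.connected_iff_exists_forall_reachable]
    refine ⟨6, ?_⟩
    have h : ∀ (G : SimpleGraph (Fin 7)), G.Adj 6 0 → G.Adj 6 2 → G.Adj 6 4 → G.Adj 0 1 →
        G.Adj 2 3 → G.Adj 4 5 → ∀ v, G.Reachable 6 v := by
      intro G a b c d e f v
      fin_cases v
      exacts [a.reachable, a.reachable.trans d.reachable, b.reachable,
        b.reachable.trans e.reachable, c.reachable, c.reachable.trans f.reachable, .refl _]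
    apply h <;> rw [SimpleGraph.fromRel_adj] <;> decide
  rot_cyc := sameCycle_of _ (fun d : Fin 9 × Bool => if d.2 then
      (![0, 1, 2, 3, 4, 5, 6, 6, 6] : Fin 9 → Fin 7) d.1 else
      (![1, 2, 3, 4, 5, 0, 0, 2, 4] : Fin 9 → Fin 7) d.1) (by decide +kernel) (by decide +kernel)
  face_surj := by decide
  face_cyc := sameCycle_of _ fc (by decide +kernel) (by decide +kernel)
  euler := rfl

def L : List ℕ :=
  [0, 18, 24, 33, 36, 66, 90, 129, 165, 258, 389, 394, 513, 581, 586, 1026, 1050, 1106, 1290,
   1370, 1445, 1450, 2049, 2085, 2209, 2565, 2645, 2650, 2725, 4100, 4362, 4388, 4641, 4698,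
   4737, 5156, 5540, 6161, 6164, 6212, 8200, 8466, 8514, 8613, 8709, 8728, 9234, 9256, 9352,
   10264, 10840, 16386, 16517, 16545, 16664, 16914, 16961, 17442, 17538, 17826, 18450, 19013,
   20498, 20504, 20546, 20762, 20810, 20996, 21013, 21018, 21061, 21066, 21125, 21153, 21784,
   22529, 22549, 22554, 22597, 22602, 22661, 22689, 24965, 24993, 25157, 32769, 32842, 32850,
   33057, 33060, 33154, 33825, 34186, 34833, 34881, 35409, 37258, 37450, 37458, 40993, 40996,
   41089, 41224, 41253, 41258, 41290, 41298, 41349, 41354, 41509, 41605, 41986, 42021, 42026,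
   42058, 42066, 42117, 42122, 43556, 65568, 65826, 65832, 65921, 66084, 66578, 66626, 66650,
   66689, 67620, 68133, 69665, 69668, 69764, 69930, 70026, 70145, 70688, 70945, 70948, 70952,
   71041, 71044, 71681, 71761, 71764, 72209, 72225, 72228, 72321, 72324, 73752, 73762, 74277,
   75864, 76312, 76322, 76324, 81938, 82178, 82208, 82258, 82264, 82309, 82337, 82338, 82344,
   83026, 83077, 83105, 83106, 84050, 84498, 98561, 98641, 99402, 99410, 100433, 131088,
   131352, 131601, 131604, 131650, 132120, 132378, 133153, 133186, 133249, 133285, 135185,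
   135188, 135204, 135450, 136356, 136465, 136468, 136472, 136484, 139282, 139288, 139336,
   139522, 139797, 139845, 140290, 140450, 140456, 140562, 140568, 140578, 140610, 140616,
   141328, 141842, 141844, 141848, 141890, 141896, 147970, 148130, 148642, 149637, 149665,
   163873, 164353, 164368, 164426, 164433, 164434, 164436, 164513, 165025, 165153, 165156,
   165962, 165969, 165970, 166049]

def PS : List (List ℕ) :=
  [[0, 11, 13], [1, 10, 12], [1, 2], [0, 3], [3, 4, 15], [2, 5, 14], [5, 6], [4, 7], [7, 8,
   17], [6, 9, 16], [9, 10], [8, 11], [12, 14, 16], [13, 15, 17]]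

def PC : List (List ℕ) :=
  [[1, 3, 13, 14], [0, 2, 12, 15], [5, 7, 15, 16], [4, 6, 14, 17], [9, 11, 12, 17], [8, 10, 13,
   16]]

def AD : List (Fin 9 × Bool) :=
  [(0, true), (0, false), (1, true), (1, false), (2, true), (2, false), (3, true), (3, false),
   (4, true), (4, false), (5, true), (5, false), (6, true), (6, false), (7, true), (7, false),
   (8, true), (8, false)]

def idx (d : Fin 9 × Bool) : ℕ := 2 * d.1.val + (if d.2 then 0 else 1)

def R (s : Pos 9) (c : ℕ) : Prop :=
  ∀ x : Fin 9 × Bool, c.testBit (idx x) = true ↔ s x.1 = some x.2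

def pat (c : ℕ) (Q : List (List ℕ)) : Bool := Q.any fun l => l.all fun j => c.testBit j

def lgB (c i : ℕ) : Bool :=
  !c.testBit (i / 2 * 2) && !c.testBit (i / 2 * 2 + 1) && !pat (c ||| 1 <<< i) PS

def chk (c : ℕ) : Bool := Nat.blt c 262144 && (List.range 18).all fun i => !lgB c i ||
  (!pat (c ||| 1 <<< i) PC && (List.range 18).any fun j => lgB (c ||| 1 <<< i) j &&
    (pat (c ||| 1 <<< i ||| 1 <<< j) PC ||
      (Nat.blt c (c ||| 1 <<< i ||| 1 <<< j) && L.any (Nat.beq (c ||| 1 <<< i ||| 1 <<< j)))))

lemma cl0 : ((L.drop 0).take 40).all chk = true := by decide +kernel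
lemma cl1 : ((L.drop 40).take 40).all chk = true := by decide +kernel
lemma cl2 : ((L.drop 80).take 40).all chk = true := by decide +kernel
lemma cl3 : ((L.drop 120).take 40).all chk = true := by decide +kernel
lemma cl4 : ((L.drop 160).take 40).all chk = true := by decide +kernel
lemma cl5 : ((L.drop 200).take 40).all chk = true := by decide +kernel

lemma closure : L.all chk = true := by
  have h : L = (L.drop 0).take 40 ++ (L.drop 40).take 40 ++ (L.drop 80).take 40 ++
      (L.drop 120).take 40 ++ (L.drop 160).take 40 ++ (L.drop 200).take 40 := by decide +kernel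
  rw [h]
  simp only [List.all_append, cl0, cl1, cl2, cl3, cl4, cl5, Bool.and_self]

lemma hA : ∀ d, d ∈ AD := by decide +kernel

lemma pat_PS {s c} (h : R s c) : pat c PS = true ↔ ∃ v, hex.Source s v ∨ hex.Sink s v := by
  have e : PS = (List.finRange 7).flatMap fun v =>
      [(AD.filter fun x => hex.tail x = v).map idx,
        (AD.filter fun x => hex.tail x = v).map fun x => idx (x.1, !x.2)] := by decide +kernel
  have h' : ∀ x : Fin 9 × Bool, c.testBit (idx (x.1, !x.2)) = true ↔ s x.1 = some (!x.2) :=
    fun x => h (x.1, !x.2)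
  unfold R at h
  simp only [pat, e, List.any_flatMap, List.any_cons, List.any_nil, List.all_map,
    List.any_eq_true, List.mem_finRange, true_and, Bool.or_eq_true, Bool.or_false,
    List.all_eq_true, List.mem_filter, hA, decide_eq_true_eq, Function.comp, h', h,
    Board.Source, Board.Sink]

lemma pat_PC {s c} (h : R s c) : pat c PC = true ↔ hex.Cyc s := by
  have e : PC = ((List.finRange 4).filter fun v => v ≠ hex.outer).flatMap fun v =>
      [(AD.filter fun x => hex.face x = v).map idx,
        (AD.filter fun x => hex.face x = v).map fun x => idx (x.1, !x.2)] := by decide +kernel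
  have h' : ∀ x : Fin 9 × Bool, c.testBit (idx (x.1, !x.2)) = true ↔ s x.1 = some (!x.2) :=
    fun x => h (x.1, !x.2)
  unfold R at h
  simp only [pat, e, List.any_flatMap, List.any_cons, List.any_nil, List.all_map,
    List.any_eq_true, List.mem_finRange, true_and, Bool.or_eq_true, Bool.or_false,
    List.all_eq_true, List.mem_filter, hA, decide_eq_true_eq, Function.comp, h', h,
    Board.Cyc]

lemma R_play {s c d} (h : R s c) (h0 : s d.1 = none) : R (play s d) (c ||| 1 <<< idx d) := by
  intro x
  have hi : ∀ x y, idx x = idx y ↔ x.1 = y.1 ∧ x.2 = y.2 := by decide +kernel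
  rw [Nat.testBit_or, Nat.one_shiftLeft, Nat.testBit_two_pow, Bool.or_eq_true, h x,
    decide_eq_true_eq, hi]
  unfold play
  split_ifs with hx
  · simp [hx, h0]
  · simp [Ne.symm hx]

lemma lg_iff {s c d} (h : R s c) : lgB c (idx d) = true ↔ hex.Legal s d := by
  have e : ∀ d, idx d / 2 * 2 = idx (d.1, true) ∧ idx d / 2 * 2 + 1 = idx (d.1, false) := by
    decide +kernel
  have h1 := h (d.1, true)
  have h2 := h (d.1, false)
  have h3 : (!c.testBit (idx d / 2 * 2) && !c.testBit (idx d / 2 * 2 + 1)) = true ↔
      s d.1 = none := by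
    rw [(e d).2, (e d).1, Bool.and_eq_true, Bool.not_eq_true', Bool.not_eq_true',
      ← Bool.not_eq_true, ← Bool.not_eq_true, h1, h2]
    rcases s d.1 with _ | _ | _ <;> simp
  rw [lgB, Bool.and_eq_true, h3]
  refine and_congr_right fun h0 => ?_
  rw [Bool.not_eq_true', ← Bool.not_eq_true, pat_PS (R_play h h0)]
  simp [not_or]

lemma win (k : ℕ) : ∀ s, ∀ c ∈ L, R s c → 262144 ≤ c + k → ∀ d, hex.Legal s d →
    ¬ hex.Cyc (play s d) ∧ hex.Win (play s d) := by
  have hI : ∀ d, idx d < 18 := by decide +kernel
  have hJ : ∀ j < 18, ∃ d, idx d = j := by decide +kernel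
  have hc := List.all_eq_true.1 closure
  simp only [chk, Bool.and_eq_true, Nat.blt_eq, List.all_eq_true, List.mem_range,
    Bool.or_eq_true, List.any_eq_true, Nat.beq_eq, Bool.not_eq_true', exists_eq_right'] at hc
  induction k with
  | zero => intro s c hl _ h; have := (hc c hl).1; omega
  | succ k ih =>
    intro s c hl hR h d hd
    have hR1 := R_play hR hd.1
    obtain h0 | ⟨h1, j, hj, h2, h3⟩ := (hc c hl).2 _ (hI d)
    · rw [(lg_iff hR).2 hd] at h0; exact absurd h0 (by decide)
    obtain ⟨d', rfl⟩ := hJ j hj
    rw [lg_iff hR1] at h2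
    have hR2 := R_play hR1 h2.1
    refine ⟨by rw [← pat_PC hR1, h1]; decide, ?_⟩
    rcases h3 with h3 | ⟨h3, h4⟩
    · exact .cyc _ _ h2 ((pat_PC hR2).1 h3)
    · have := ih _ _ h4 hR2 (by omega)
      exact .step _ _ h2 (fun d hd => (this d hd).1) (fun d hd => (this d hd).2)

set_option synthInstance.maxSize 2000 in
lemma tri : ∀ a b c : Fin 7,
    a ≠ b ∧ ((∃ e, hex.src e = a ∧ hex.tgt e = b) ∨ ∃ e, hex.src e = b ∧ hex.tgt e = a) →
    a ≠ c ∧ ((∃ e, hex.src e = a ∧ hex.tgt e = c) ∨ ∃ e, hex.src e = c ∧ hex.tgt e = a) →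
    b ≠ c ∧ ((∃ e, hex.src e = b ∧ hex.tgt e = c) ∨ ∃ e, hex.src e = c ∧ hex.tgt e = b) →
    False := by
  decide +kernel

/-- A triangle-free board with an odd number of edges, in which every edge borders two distinct
regions (so there are no leaves or bridges), on which Player 2 has a winning strategy. -/
theorem result : ∃ (n m f : ℕ) (B : Board n m f), B.graph.CliqueFree 3 ∧ Odd m ∧
    (∀ e, B.face (e, true) ≠ B.face (e, false)) ∧ B.SecondWins := by
  refine ⟨7, 9, 4, hex, ?_, by decide, by decide, ?_⟩
  · intro t ht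
    obtain ⟨a, b, c, hab, hac, hbc, -⟩ := SimpleGraph.is3Clique_iff.1 ht
    simp only [Board.graph, SimpleGraph.fromRel_adj] at hab hac hbc
    exact tri a b c hab hac hbc
  · exact win 262144 _ 0 (by decide +kernel) (fun x => by simp) (by omega)

end Pool.Agent.Results.MP_b0ae03_co.Hexagon
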